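import Pool.Agent.Helper18.EW.Goals4

set_option autoImplicit false

namespace Pool.Agent.Helper12.EW

open Pool.Agent.Helper18.EW

theorem goalWZ : GoalWZ := by
  intro hFA n m d h Lg W hL hn hn2 hm hnm hW3 h1 h2 h3 hc hW
  refine hFA n m d h Lg W hL hn hn2 hnm hW3 h1 h2 h3 hc ?_
  intro l b hl hb h4 h5
  generalize hA : 2 ^ 75 * Lg ^ 3 + 2 * Nat.sqrt n = A at hW h5
  have hLg2 : 1 ≤ Lg ^ 2 := Nat.one_le_pow _ _ hL
  constructor
  · calc 2 ^ 65 * Lg ^ 2 * m ≤ 2 ^ 65 * Lg ^ 2 * (l * A) := Nat.mul_le_mul_left _ h5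
      _ = l * (2 ^ 65 * Lg ^ 2 * A) := by ring
      _ ≤ l * W := Nat.mul_le_mul_left _ hW
  · have e1 : l * (2 ^ 31 * b * Lg ^ 2) ≤ l * A := by
      calc l * (2 ^ 31 * b * Lg ^ 2) = 2 ^ 31 * b * Lg ^ 2 * l := by ring
        _ ≤ m := h4
        _ ≤ l * A := h5
    have e2 : 2 ^ 31 * b * Lg ^ 2 ≤ A := Nat.le_of_mul_le_mul_left e1 (by omega)
    have e3 : b ≤ A := by
      calc b = 1 * b * 1 := by ring
        _ ≤ 2 ^ 31 * b * Lg ^ 2 := Nat.mul_le_mul (Nat.mul_le_mul_right _ (by norm_num)) hLg2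
        _ ≤ A := e2
    have e4 : 2 * b ≤ W := by
      calc 2 * b ≤ 2 * A := Nat.mul_le_mul_left _ e3
        _ = 2 * 1 * A := by ring
        _ ≤ 2 ^ 65 * Lg ^ 2 * A :=
          Nat.mul_le_mul_right _ (Nat.mul_le_mul (by norm_num) hLg2)
        _ ≤ W := hW
    have e5 : b * l ≤ 2 ^ Lg := by
      refine le_trans ?_ hm
      calc b * l = 1 * b * 1 * l := by ring
        _ ≤ 2 ^ 31 * b * Lg ^ 2 * l :=
          Nat.mul_le_mul_right _ (Nat.mul_le_mul (Nat.mul_le_mul_right _ (by norm_num)) hLg2)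
        _ ≤ m := h4
    have e6 : (b * l) ^ 2 ≤ 4 ^ Lg := by
      calc (b * l) ^ 2 ≤ (2 ^ Lg) ^ 2 := Nat.pow_le_pow_left e5 2
        _ = 4 ^ Lg := by rw [← pow_mul, mul_comm, pow_mul]; norm_num
    calc b * (b * l) ^ 2 + b * 4 ^ Lg ≤ b * 4 ^ Lg + b * 4 ^ Lg :=
          Nat.add_le_add_right (Nat.mul_le_mul_left _ e6) _
      _ = 2 * b * 4 ^ Lg := by ring
      _ ≤ W * 4 ^ Lg := Nat.mul_le_mul_right _ e4

end Pool.Agent.Helper12.EW
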